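import Mathlib
import Pool.Agent.AsdimExp.Shallow

/-!
# Monotone classes of bounded asymptotic dimension have bounded expansion

Literal definitions of the problem (families of `r`-disjoint sets, contraction of disjoint
connected subgraphs of radius at most `r`, average degree), with a bound for the expansion that
depends only on the dimension and the control function, and a version in which the covers are
needed at two scales only.
-/

set_option autoImplicit false

namespace Pool.Agent.Results.MP_bdfe62_co.AsdimExpansion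

open Pool.Agent.AsdimExp

universe u

/-- `V(G)` is covered by `n + 1` families `U 0, …, U n` of vertex sets, each of them `r`-disjoint
(points of different members are at distance greater than `r` in `G`), such that any two points
of one member are at distance at most `D` in `G`. -/
def Covered {V : Type u} (n r D : ℕ) (G : SimpleGraph V) : Prop :=
  ∃ U : Fin (n + 1) → Set (Set V),
    (∀ i, ∀ A ∈ U i, ∀ B ∈ U i, A ≠ B → ∀ x ∈ A, ∀ y ∈ B, (r : ℕ∞) < G.edist x y) ∧
    (∀ i, ∀ A ∈ U i, ∀ x ∈ A, ∀ y ∈ A, G.edist x y ≤ (D : ℕ∞)) ∧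
    ∀ x : V, ∃ i, ∃ A ∈ U i, x ∈ A

/-- `C` is a class of finite graphs -/
def FiniteClass (C : ∀ V : Type u, SimpleGraph V → Prop) : Prop :=
  ∀ (V : Type u) (G : SimpleGraph V), C V G → Finite V

/-- every subgraph of a member of `C` belongs to `C` -/
def MonotoneClass (C : ∀ V : Type u, SimpleGraph V → Prop) : Prop :=
  ∀ (V : Type u) (G : SimpleGraph V), C V G → ∀ H : G.Subgraph, C H.verts H.coe

/-- `C` has asymptotic dimension at most `n`, with control function `D` -/
def AsdimLE (n : ℕ) (D : ℕ → ℕ) (C : ∀ V : Type u, SimpleGraph V → Prop) : Prop :=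
  ∀ (V : Type u) (G : SimpleGraph V), C V G → ∀ r : ℕ, 1 ≤ r → Covered n r (D r) G

/-- `M` is obtained from a subgraph `H` of `G` by contracting each member of a family `F` of
pairwise vertex-disjoint subgraphs of `H`, each connected and of radius at most `r` (that is, with
a vertex `c` at distance at most `r`, in this subgraph, from all its vertices). The map `π` is the
contraction on the vertices. -/
def Contraction {V : Type u} {W : Type u} (r : ℕ) (G : SimpleGraph V) (M : SimpleGraph W) : Prop :=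
  ∃ (H : G.Subgraph) (F : Set G.Subgraph) (π : H.verts → W),
    (∀ S ∈ F, S ≤ H) ∧
    (∀ S ∈ F, ∀ T ∈ F, S ≠ T → Disjoint S.verts T.verts) ∧
    (∀ S ∈ F, ∃ c : S.verts, ∀ x : S.verts, S.coe.edist c x ≤ (r : ℕ∞)) ∧
    Function.Surjective π ∧
    (∀ x y : H.verts, π x = π y ↔ x = y ∨ ∃ S ∈ F, x.1 ∈ S.verts ∧ y.1 ∈ S.verts) ∧
    (∀ a b : W, M.Adj a b ↔ a ≠ b ∧ ∃ x y : H.verts, π x = a ∧ π y = b ∧ H.Adj x.1 y.1)

/-- the average degree `2|E(M)|/|V(M)|` (with value `0` if `M` has no vertices) -/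
noncomputable def avgDegree {W : Type u} (M : SimpleGraph W) : ℝ :=
  2 * (M.edgeSet.ncard : ℝ) / (Nat.card W : ℝ)

/-- `C` has expansion at most `f` -/
def ExpansionLE (f : ℕ → ℝ) (C : ∀ V : Type u, SimpleGraph V → Prop) : Prop :=
  ∀ (V : Type u) (G : SimpleGraph V), C V G → ∀ (r : ℕ) (W : Type u) (M : SimpleGraph W),
    Contraction r G M → avgDegree M ≤ f r

/-- a cover by disjoint families gives a colouring -/
theorem col_of_covered {V : Type u} (n r D : ℕ) (G : SimpleGraph V) (h : Covered n r D G) :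
    Col n D r G := by
  obtain ⟨U, h1, h2, h3⟩ := h
  choose c A hA hx using h3
  refine ⟨c, ?_⟩
  intro u v huv
  have key : c u = c v ∧ A u = A v := by
    induction huv with
    | refl => exact ⟨rfl, rfl⟩
    | @tail b w _ hbw ih =>
      refine ⟨ih.1.trans hbw.1, ih.2.trans ?_⟩
      by_contra hne
      have hw : A w ∈ U (c b) := by
        rw [hbw.1]
        exact hA w
      exact absurd hbw.2 (not_le.mpr (h1 (c b) (A b) (hA b) (A w) hw hne b (hx b) w (hx w)))
  exact h2 (c u) (A u) (hA u) u (hx u) v (by rw [key.2]; exact hx v)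

/-- colourings pass from the spanning subgraph as a graph on its vertex set -/
theorem col_of_spanning {V : Type u} (n r D : ℕ) (G G' : SimpleGraph V) (h : G' ≤ G)
    (hc : Col n D r (SimpleGraph.toSubgraph G' h).coe) : Col n D r G' := by
  refine col_transfer (SimpleGraph.toSubgraph G' h).coe G'
    (fun v => ⟨v, by simp [SimpleGraph.toSubgraph]⟩) (fun v => v.1) (fun _ => rfl) ?_ 1 ?_ n r D
    (by rw [one_mul]; exact hc)
  · rintro a b hab
    exact Or.inr hab
  · intro a b hab
    rw [Nat.cast_one, SimpleGraph.edist_le_one_iff_adj_or_eq]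
    exact Or.inl hab

/-- walks of a subgraph are walks of the graph -/
theorem walk_of_sub {V : Type u} {G : SimpleGraph V} (S : G.Subgraph) {a b : S.verts}
    (p : S.coe.Walk a b) :
    ∃ q : G.Walk a.1 b.1, q.length = p.length ∧ ∀ y ∈ q.support, y ∈ S.verts := by
  induction p with
  | @nil a =>
    refine ⟨SimpleGraph.Walk.nil, by simp, ?_⟩
    intro y hy
    rw [SimpleGraph.Walk.support_nil, List.mem_singleton] at hy
    rw [hy]
    exact a.2
  | @cons a b c h p ih =>
    obtain ⟨q, hq1, hq2⟩ := ih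
    have hadj : G.Adj a.1 b.1 := S.adj_sub h
    refine ⟨SimpleGraph.Walk.cons hadj q, ?_, ?_⟩
    · rw [SimpleGraph.Walk.length_cons, SimpleGraph.Walk.length_cons, hq1]
    · intro y hy
      rw [SimpleGraph.Walk.support_cons, List.mem_cons] at hy
      rcases hy with rfl | hy
      · exact a.2
      · exact hq2 y hy

/-- a contraction is modelled by disjoint sets of small radius -/
theorem model_of_contraction {V : Type u} {W : Type u} (r : ℕ) (G : SimpleGraph V)
    (M : SimpleGraph W) (h : Contraction r G M) :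
    ∃ (B : W → Set V) (ctr : W → V), Model r G M B ctr := by
  obtain ⟨H, F, π, h1, h2, h3, h4, h5, h6⟩ := h
  have hc : ∀ a : W, ∃ c : H.verts, π c = a ∧ ∀ x : H.verts, π x = a →
      ∃ p : G.Walk c.1 x.1, p.length ≤ r ∧ ∀ y ∈ p.support, ∃ h : y ∈ H.verts, π ⟨y, h⟩ = a := by
    intro a
    obtain ⟨x0, hx0⟩ := h4 a
    by_cases hex : ∃ S ∈ F, x0.1 ∈ S.verts
    · obtain ⟨S, hS, hxS⟩ := hex
      obtain ⟨c, hcS⟩ := h3 S hS
      have hπS : ∀ y, y ∈ S.verts → ∃ h : y ∈ H.verts, π ⟨y, h⟩ = a := by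
        intro y hy
        refine ⟨(h1 S hS).1 hy, ?_⟩
        rw [← hx0, h5]
        exact Or.inr ⟨S, hS, hy, hxS⟩
      obtain ⟨hcH, hca⟩ := hπS c.1 c.2
      refine ⟨⟨c.1, hcH⟩, hca, ?_⟩
      intro x hx
      have hxS' : x.1 ∈ S.verts := by
        rw [← hx0, h5] at hx
        rcases hx with rfl | ⟨T, hT, hxT, hx0T⟩
        · exact hxS
        · by_cases hST : S = T
          · rw [hST]
            exact hxT
          · exact absurd hx0T (Set.disjoint_left.mp (h2 S hS T hT hST) hxS)
      have hd := hcS ⟨x.1, hxS'⟩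
      obtain ⟨p, hp⟩ := SimpleGraph.exists_walk_of_edist_ne_top
        (ne_top_of_le_ne_top (ENat.natCast_ne_top r) hd)
      rw [← hp] at hd
      obtain ⟨q, hq1, hq2⟩ := walk_of_sub S p
      refine ⟨q, ?_, fun y hy => hπS y (hq2 y hy)⟩
      rw [hq1]
      exact_mod_cast hd
    · refine ⟨x0, hx0, ?_⟩
      intro x hx
      rw [← hx0, h5] at hx
      rcases hx with rfl | ⟨T, hT, _, hx0T⟩
      · refine ⟨SimpleGraph.Walk.nil, by simp, ?_⟩
        intro y hy
        rw [SimpleGraph.Walk.support_nil, List.mem_singleton] at hy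
        subst hy
        exact ⟨x.2, hx0⟩
      · exact absurd ⟨T, hT, hx0T⟩ hex
  choose ctr hctr hwalk using hc
  refine ⟨fun a => {v | ∃ h : v ∈ H.verts, π ⟨v, h⟩ = a}, fun a => (ctr a).1, ?_, ?_, ?_, ?_⟩
  · intro a b hab
    rw [Set.disjoint_left]
    rintro v ⟨hv, hva⟩ ⟨hv', hvb⟩
    exact hab (hva.symm.trans hvb)
  · intro a
    exact ⟨(ctr a).2, hctr a⟩
  · rintro a x ⟨hx, hxa⟩
    exact hwalk a ⟨x, hx⟩ hxa
  · intro a b hab
    obtain ⟨_, x, y, hx, hy, hxy⟩ := (h6 a b).mp hab
    exact ⟨x.1, ⟨x.2, hx⟩, y.1, ⟨y.2, hy⟩, hxy.adj_sub⟩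

/-- two scales suffice -/
theorem two_scales (n r D₁ D₂ : ℕ) : ∃ K : ℝ, ∀ (V : Type u) (G : SimpleGraph V), Finite V →
    (∀ H : SimpleGraph V, H ≤ G → Col n D₁ (4 * r + 2) H ∧
      Col n D₂ ((4 * r + 2) * (2 * D₁ + 6)) H) →
    ∀ (W : Type u) (M : SimpleGraph W), Contraction r G M → avgDegree M ≤ K := by
  obtain ⟨K, hK⟩ := shallow_density.{u, u} n r D₁ D₂
  refine ⟨K, ?_⟩
  intro V G hV hcov W M hM
  have hWfin : Finite W := by
    obtain ⟨H, F, π, -, -, -, h4, -, -⟩ := hM
    exact Finite.of_surjective π h4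
  have := Fintype.ofFinite W
  obtain ⟨B, ctr, hmod⟩ := model_of_contraction r G M hM
  have e1 : (2 * r + 1) * 2 = 4 * r + 2 := by ring
  have e2 : (2 * r + 1) * ((2 * (D₁ + 2) + 2) * 2) = (4 * r + 2) * (2 * D₁ + 6) := by ring
  have hfin := hK V G (fun G' hG' => by rw [e1]; exact (hcov G' hG').1)
    (fun G' hG' => by rw [e2]; exact (hcov G' hG').2) W M B ctr hmod
  rw [avgDegree, Nat.card_eq_fintype_card]
  rcases Nat.eq_zero_or_pos (Fintype.card W) with h0 | h0
  · rw [h0]
    simp
  · rw [div_le_iff₀ (by exact_mod_cast h0)]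
    exact_mod_cast hfin

/-- (1) Every monotone class of finite graphs of bounded asymptotic dimension has bounded
expansion. (2) The expansion is bounded by a function which depends only on the dimension `n` and
the control function `D`. (3) Covers at two scales suffice. -/
theorem result :
    (∀ C : (∀ V : Type u, SimpleGraph V → Prop), FiniteClass C → MonotoneClass C →
      (∃ (n : ℕ) (D : ℕ → ℕ), AsdimLE n D C) → ∃ f : ℕ → ℝ, ExpansionLE f C) ∧
    (∀ (n : ℕ) (D : ℕ → ℕ), ∃ f : ℕ → ℝ, ∀ C : (∀ V : Type u, SimpleGraph V → Prop),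
      FiniteClass C → MonotoneClass C → AsdimLE n D C → ExpansionLE f C) ∧
    (∀ n r D₁ D₂ : ℕ, ∃ K : ℝ, ∀ (V : Type u) (G : SimpleGraph V), Finite V →
      (∀ H : SimpleGraph V, H ≤ G → Covered n (4 * r + 2) D₁ H ∧
        Covered n ((4 * r + 2) * (2 * D₁ + 6)) D₂ H) →
      ∀ (W : Type u) (M : SimpleGraph W), Contraction r G M → avgDegree M ≤ K) := by
  have key : ∀ (n : ℕ) (D : ℕ → ℕ), ∃ f : ℕ → ℝ, ∀ C : (∀ V : Type u, SimpleGraph V → Prop),
      FiniteClass C → MonotoneClass C → AsdimLE n D C → ExpansionLE f C := by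
    intro n D
    have h := fun r : ℕ => two_scales.{u} n r (D (4 * r + 2))
      (D ((4 * r + 2) * (2 * D (4 * r + 2) + 6)))
    choose f hf using h
    refine ⟨f, ?_⟩
    intro C hfin hmono hasdim V G hG r W M hM
    refine hf r V G (hfin V G hG) ?_ W M hM
    intro H hH
    have hmem := hmono V G hG (SimpleGraph.toSubgraph H hH)
    have hpos : 1 ≤ (4 * r + 2) * (2 * D (4 * r + 2) + 6) :=
      Nat.one_le_iff_ne_zero.mpr (by positivity)
    exact ⟨col_of_spanning n _ _ G H hH (col_of_covered _ _ _ _ (hasdim _ _ hmem _ (by omega))),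
      col_of_spanning n _ _ G H hH (col_of_covered _ _ _ _ (hasdim _ _ hmem _ hpos))⟩
  refine ⟨?_, key, ?_⟩
  · rintro C h1 h2 ⟨n, D, h3⟩
    obtain ⟨f, hf⟩ := key n D
    exact ⟨f, hf C h1 h2 h3⟩
  · intro n r D₁ D₂
    obtain ⟨K, hK⟩ := two_scales.{u} n r D₁ D₂
    refine ⟨K, ?_⟩
    intro V G hV hcov W M hM
    exact hK V G hV (fun H hH => ⟨col_of_covered _ _ _ _ (hcov H hH).1,
      col_of_covered _ _ _ _ (hcov H hH).2⟩) W M hM

end Pool.Agent.Results.MP_bdfe62_co.AsdimExpansion
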